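import Pool.Agent.Y902.GN.Stm
import Pool.Agent.Y902.FB.AuxS
import Pool.Agent.Y902.FB.Sur
import Pool.Agent.Y902.FD.Param
import Pool.Agent.Y902.FD.Ks

/-!
# The determinant method on the intersection of two hypersurfaces

Job GN-A of helper902 (statement `S_A` of `Pool.Agent.Y902.GN.Stm`).
-/

set_option autoImplicit false

namespace Pool.Agent.Y884.GN

open Finset MvPolynomial Pool.Agent.Y902.FB Pool.Agent.Y902.GN

/-- two hypersurfaces near a point where one of the minors is a unit -/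
theorem minor {σ ι : Type*} [Fintype σ] [DecidableEq σ] {q : ℕ} (hq : q.Prime)
    (F H : MvPolynomial σ ℤ) (P : σ → ℤ) {a c : σ} (hac : a ≠ c) (k : ι → σ)
    (hk : ∀ x, x ∉ Set.range k → x = a ∨ x = c) (hka : ∀ y, k y ≠ a) (hkc : ∀ y, k y ≠ c)
    (hΔ : ¬ (q : ℤ) ∣ (eval P (pderiv a F) * eval P (pderiv c H) -
        eval P (pderiv c F) * eval P (pderiv a H))) (r : ℕ) :
    ∃ p : σ → MvPolynomial ι ℤ, ∀ t : σ → ℤ,
      (∀ i, (q : ℤ) ∣ t i - P i) → eval t F = 0 → eval t H = 0 →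
      ∀ i, (q : ℤ) ^ r ∣ t i - eval (fun x => t (k x) - P (k x)) (p i) := by
  obtain ⟨ν, hν⟩ := exists_inv hq hΔ
  set m : σ → Bool → ℤ := fun i s =>
    if i = a then (if s then ν * eval P (pderiv c H) else -(ν * eval P (pderiv c F)))
      else if i = c then (if s then -(ν * eval P (pderiv a H)) else ν * eval P (pderiv a F))
      else 0 with hm
  have h2a : c ≠ a := Ne.symm hac
  have g1 : ∀ x, x ∉ Set.range k → ∀ d, d ∉ Set.range k →
      (q : ℤ) ∣ (∑ s, m x s * eval P (pderiv d (if s then F else H))) -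
        if x = d then 1 else 0 := by
    intro x hcr d hdr
    rcases hk x hcr with hca | hca <;> rcases hk d hdr with hda | hda
    · rw [hca, hda, if_pos rfl]
      have e1 : ∑ s, m a s * eval P (pderiv a (if s then F else H)) - 1 =
          ν * (eval P (pderiv a F) * eval P (pderiv c H) -
            eval P (pderiv c F) * eval P (pderiv a H)) - 1 := by
        simp only [hm, if_true, Fintype.sum_bool, Bool.false_eq_true, if_false]
        ring
      rw [e1]; exact hν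
    · rw [hca, hda, if_neg hac]
      have e1 : ∑ s, m a s * eval P (pderiv c (if s then F else H)) - 0 = 0 := by
        simp only [hm, if_true, Fintype.sum_bool, Bool.false_eq_true, if_false]
        ring
      rw [e1]; exact dvd_zero _
    · rw [hca, hda, if_neg h2a]
      have e1 : ∑ s, m c s * eval P (pderiv a (if s then F else H)) - 0 = 0 := by
        simp only [hm, if_true, Fintype.sum_bool, Bool.false_eq_true, if_false, if_neg h2a]
        ring
      rw [e1]; exact dvd_zero _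
    · rw [hca, hda, if_pos rfl]
      have e1 : ∑ s, m c s * eval P (pderiv c (if s then F else H)) - 1 =
          ν * (eval P (pderiv a F) * eval P (pderiv c H) -
            eval P (pderiv c F) * eval P (pderiv a H)) - 1 := by
        simp only [hm, if_true, Fintype.sum_bool, Bool.false_eq_true, if_false, if_neg h2a]
        ring
      rw [e1]; exact hν
  have g2 : ∀ x ∈ Set.range k, ∀ s : Bool, m x s = 0 := by
    rintro x ⟨y, rfl⟩ s
    simp only [hm]
    rw [if_neg (hka y), if_neg (hkc y)]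
  obtain ⟨p, -, hp⟩ := newton (S := Bool) (q : ℤ) (fun s => if s then F else H) m k P r g1 g2
  refine ⟨p, fun t ht hF hH i => hp t ht (fun s => ?_) i⟩
  cases s
  · simp [hH]
  · simp [hF]

/-- auxiliary polynomials vanish when the values are small -/
theorem vanish {σ ι M : Type*} [Fintype σ] [DecidableEq σ] [Fintype ι] [DecidableEq ι] [Fintype M]
    [Nonempty M] (q ρ V : ℕ) (hq : 2 ≤ q) (P : σ → ℤ) (k : ι → σ) (p : σ → MvPolynomial ι ℤ)
    (Ω : Set (σ → ℤ))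
    (hΩ1 : ∀ t ∈ Ω, ∀ i, (q : ℤ) ∣ t i - P i)
    (hΩ2 : ∀ t ∈ Ω, ∀ i, (q : ℤ) ^ (2 * ρ) ∣ t i - eval (fun x => t (k x) - P (k x)) (p i))
    (f : M → MvPolynomial σ ℤ)
    (hcard : (2 * ρ) ^ (Fintype.card ι + 1) ≤ ρ * Fintype.card M)
    (hV : ∀ t ∈ Ω, ∀ e, |eval t (f e)| ≤ V) (hbig : Fintype.card M * V < q ^ ρ) :
    ∃ c : M → ℤ, c ≠ 0 ∧ (∀ e, |c e| ≤ ((q ^ ρ : ℕ) : ℤ)) ∧ ∀ t ∈ Ω, ∑ e, c e * eval t (f e) = 0 := by
  obtain ⟨c, hc0, hc1, hc2⟩ := aux q (2 * ρ) (q ^ ρ) hq P k p Ω hΩ1 hΩ2 f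
    (card_ineq hq Fintype.card_pos hcard)
  refine ⟨c, hc0, hc1, fun t ht => ?_⟩
  refine Int.eq_zero_of_abs_lt_dvd (hc2 t ht) ?_
  have h1 : |∑ e, c e * eval t (f e)| ≤ ∑ _e : M, (((q ^ ρ : ℕ) : ℤ) * V) := by
    refine (Finset.abs_sum_le_sum_abs _ _).trans (Finset.sum_le_sum fun e _ => ?_)
    rw [abs_mul]
    exact mul_le_mul (hc1 e) (hV t ht e) (abs_nonneg _) (by positivity)
  refine lt_of_le_of_lt h1 ?_
  rw [Finset.sum_const, Finset.card_univ, nsmul_eq_mul]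
  have h2 : Fintype.card M * (q ^ ρ * V) < q ^ (2 * ρ) := by
    have e1 : Fintype.card M * (q ^ ρ * V) = (Fintype.card M * V) * q ^ ρ := by ring
    rw [e1, two_mul, pow_add]
    exact Nat.mul_lt_mul_of_pos_right hbig (Nat.pow_pos (by omega))
  exact_mod_cast h2

/-- the numerical condition -/
theorem num (d k D ρ : ℕ) (hd : 1 ≤ d) (hD : D = 2 ^ d * (k * d + 2) ^ d) (hρ : ρ = k * d * D + 2) :
    (2 * ρ) ^ (d - 1 + 1) ≤ ρ * (D + 1) ^ d := by
  have h1 : ρ ≤ (k * d + 2) * (D + 1) := by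
    rw [hρ]
    nlinarith [Nat.zero_le (k * d), Nat.zero_le D]
  have h2 : (2 * ρ) ^ (d - 1) ≤ (2 * ((k * d + 2) * (D + 1))) ^ (d - 1) :=
    Nat.pow_le_pow_left (by omega) _
  have h3 : 2 * (2 * ((k * d + 2) * (D + 1))) ^ (d - 1) =
      2 ^ (d - 1 + 1) * (k * d + 2) ^ (d - 1) * (D + 1) ^ (d - 1) := by
    rw [mul_pow, mul_pow, pow_succ]
    ring
  have h4 : d - 1 + 1 = d := by omega
  have h5 : (k * d + 2) ^ (d - 1) ≤ (k * d + 2) ^ d := Nat.pow_le_pow_right (by omega) (by omega)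
  calc (2 * ρ) ^ (d - 1 + 1) = ρ * (2 * (2 * ρ) ^ (d - 1)) := by rw [pow_succ]; ring
    _ ≤ ρ * (2 * (2 * ((k * d + 2) * (D + 1))) ^ (d - 1)) := by gcongr
    _ = ρ * (2 ^ d * (k * d + 2) ^ (d - 1) * (D + 1) ^ (d - 1)) := by rw [h3, h4]
    _ ≤ ρ * (2 ^ d * (k * d + 2) ^ d * (D + 1) ^ (d - 1)) := by gcongr
    _ = ρ * (D * (D + 1) ^ (d - 1)) := by rw [← hD]
    _ ≤ ρ * ((D + 1) ^ (d - 1) * (D + 1)) := by
        rw [mul_comm D]
        gcongr
        omega
    _ = ρ * (D + 1) ^ d := by rw [← pow_succ, h4]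

/-- one residue class -/
theorem cls {d k X Y D ρ q : ℕ} (hD : D = 2 ^ d * (k * d + 2) ^ d) (hρ : ρ = k * d * D + 2)
    (hX : (D + 1) ^ d ≤ X) (hX1 : 2 ≤ X) (hY : 1 ≤ Y) (hYX : Y ≤ X ^ k) (hq : q.Prime)
    (hXq : X ≤ q) (H f : MvPolynomial (Option (Fin d)) ℤ) (a : Fin d)
    (P : Option (Fin d) → ℤ) (Ω : Set (Option (Fin d) → ℤ))
    (hP : ¬ (q : ℤ) ∣ eval P (dl H a f)) (hΩP : ∀ t ∈ Ω, ∀ i, (q : ℤ) ∣ t i - P i)
    (hΩ : ∀ t ∈ Ω, eval t H = 0 ∧ eval t f = 0 ∧ ∀ b, |t (some b)| ≤ (Y : ℤ)) :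
    ∃ c : (Fin d → Fin (D + 1)) → ℤ, c ≠ 0 ∧ (∀ e, |c e| ≤ ((q ^ ρ : ℕ) : ℤ)) ∧
      ∀ t ∈ Ω, ∑ e, c e * ∏ b, t (some b) ^ (e b : ℕ) = 0 := by
  have hd : 1 ≤ d := by
    have := a.2
    omega
  have hq2 : 2 ≤ q := hq.two_le
  obtain ⟨p, hp⟩ := minor hq H f P (a := none) (c := some a) (by simp)
    (fun b : {b : Fin d // b ≠ a} => some (b : Fin d))
    (by
      intro x hx
      rcases x with _ | x
      · exact Or.inl rfl
      · right
        by_contra h
        exact hx ⟨⟨x, fun h' => h (by rw [h'])⟩, rfl⟩)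
    (by intro y; simp)
    (by
      intro y h
      exact y.2 (Option.some_injective _ h))
    (by
      intro h
      apply hP
      unfold dl
      simpa only [map_sub, map_mul] using h) (2 * ρ)
  have hcM : Fintype.card (Fin d → Fin (D + 1)) = (D + 1) ^ d := by
    rw [Fintype.card_fun, Fintype.card_fin, Fintype.card_fin]
  have hcι : Fintype.card {b : Fin d // b ≠ a} = d - 1 := by
    rw [Fintype.card_subtype_compl, Fintype.card_fin, Fintype.card_subtype_eq]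
  obtain ⟨c, hc0, hc1, hc2⟩ := vanish (M := Fin d → Fin (D + 1)) q ρ (Y ^ (d * D)) hq2 P
    (fun b : {b : Fin d // b ≠ a} => some (b : Fin d)) p Ω hΩP
    (fun t ht => hp t (hΩP t ht) (hΩ t ht).1 (hΩ t ht).2.1)
    (fun e => ∏ b, MvPolynomial.X (some b) ^ (e b : ℕ))
    (by
      rw [hcM, hcι]
      exact num d k D ρ hd hD hρ)
    (fun t ht e => by
      rw [map_prod, Finset.abs_prod]
      calc ∏ b, |eval t (MvPolynomial.X (some b) ^ (e b : ℕ))| ≤ ∏ _b : Fin d, ((Y ^ D : ℕ) : ℤ) :=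
            Finset.prod_le_prod (fun i _ => abs_nonneg _) fun b _ => by
              rw [map_pow, eval_X]
              exact abs_pow_le_pow ((hΩ t ht).2.2 b) hY (by have := (e b).2; omega)
        _ = ((Y ^ (d * D) : ℕ) : ℤ) := by
            rw [Finset.prod_const, Finset.card_univ, Fintype.card_fin, mul_comm d D, pow_mul]
            push_cast
            ring)
    (by
      rw [hcM, hρ]
      have h1 : Y ^ (d * D) ≤ q ^ (k * d * D) := by
        calc Y ^ (d * D) ≤ (X ^ k) ^ (d * D) := Nat.pow_le_pow_left hYX _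
          _ = X ^ (k * d * D) := by rw [← pow_mul, mul_assoc]
          _ ≤ _ := Nat.pow_le_pow_left hXq _
      calc (D + 1) ^ d * Y ^ (d * D) ≤ q * q ^ (k * d * D) :=
            Nat.mul_le_mul (hX.trans hXq) h1
        _ = q ^ (k * d * D + 1) := by rw [pow_succ]; ring
        _ < q ^ (k * d * D + 2) := Nat.pow_lt_pow_right (by omega) (by omega))
  refine ⟨c, hc0, hc1, fun t ht => ?_⟩
  have := hc2 t ht
  simpa only [map_prod, map_pow, eval_X] using this

/-- JOB A -/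
theorem t : S_A := by
  intro d k hk
  obtain ⟨D, hD⟩ : ∃ D, D = 2 ^ d * (k * d + 2) ^ d := ⟨_, rfl⟩
  obtain ⟨ρ, hρ⟩ : ∃ ρ, ρ = k * d * D + 2 := ⟨_, rfl⟩
  refine ⟨D, 2 * ρ, max 1000000 ((D + 1) ^ d), ?_⟩
  intro X Y hX hY hYX H f a α T s hT
  classical
  have hX1 : 1000000 ≤ X := (le_max_left _ _).trans hX
  have hX2 : (D + 1) ^ d ≤ X := (le_max_right _ _).trans hX
  rcases T.eq_empty_or_nonempty with rfl | hne
  · refine ⟨∅, subset_rfl, by simp, fun _ => 1, ?_, fun e => ?_, by simp⟩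
    · intro h
      have := congrFun h (fun _ => 0)
      simp at this
    · rw [abs_one]
      have : (1 : ℤ) ≤ (X : ℤ) := by exact_mod_cast (by omega : 1 ≤ X)
      exact one_le_pow₀ this
  obtain ⟨Q, hQ1, hQ2, hQ⟩ := Pool.Agent.Y902.FD.many_primes X hX1
  have hex : ∀ t, ∃ q, t ∈ T → q ∈ Q ∧ ¬ (q : ℤ) ∣ eval (s t) (dl H a f) := by
    intro t
    by_cases ht : t ∈ T
    · obtain ⟨-, -, -, h1, h2⟩ := hT t ht
      obtain ⟨q, hq, h⟩ := exists_prime_not_dvd Q (fun q hq => (hQ q hq).1) X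
        (fun q hq => (hQ q hq).2.1) _ h1 (lt_of_lt_of_le h2 (by
          have g1 : (2 : ℤ) ^ X ≤ (X : ℤ) ^ X :=
            pow_le_pow_left₀ (by norm_num) (by exact_mod_cast (by omega : 2 ≤ X)) _
          have g2 : (X : ℤ) ^ X ≤ (X : ℤ) ^ Q.card :=
            pow_le_pow_right₀ (by exact_mod_cast (by omega : 1 ≤ X)) hQ1
          exact g1.trans g2))
      exact ⟨q, fun _ => ⟨hq, h⟩⟩
    · exact ⟨0, fun h => absurd h ht⟩
  choose qq hqq using hex
  have hX0 : 0 < X ^ 2 := by positivity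
  -- the classes
  let F : α → ℕ × (Option (Fin d) → Fin (X ^ 2)) := fun t =>
    (qq t, fun o => ⟨((s t o) % (qq t : ℤ)).toNat % X ^ 2, Nat.mod_lt _ hX0⟩)
  obtain ⟨c0, hc0, hmax⟩ := Finset.exists_max_image (T.image F)
    (fun c => (T.filter fun t => F t = c).card) (hne.image F)
  have h1 := Finset.card_le_mul_card_image (f := F) T (T.filter fun t => F t = c0).card
    (fun b hb => hmax b hb)
  have h2 : (T.image F).card ≤ X ^ (2 * d + 5) := by
    have h3 : T.image F ⊆ Q ×ˢ (Finset.univ : Finset (Option (Fin d) → Fin (X ^ 2))) := by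
      intro c hc
      obtain ⟨t, ht, rfl⟩ := Finset.mem_image.1 hc
      exact Finset.mem_product.2 ⟨(hqq t ht).1, Finset.mem_univ _⟩
    refine (Finset.card_le_card h3).trans ?_
    rw [Finset.card_product, Finset.card_univ, Fintype.card_fun, Fintype.card_option,
      Fintype.card_fin, Fintype.card_fin]
    calc Q.card * (X ^ 2) ^ (d + 1) ≤ X ^ 3 * (X ^ 2) ^ (d + 1) := Nat.mul_le_mul_right _ hQ2
      _ = X ^ (2 * d + 5) := by
        rw [← pow_mul, ← pow_add]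
        congr 1
        ring
  refine ⟨T.filter fun t => F t = c0, Finset.filter_subset _ _, ?_, ?_⟩
  · refine h1.trans ?_
    rw [mul_comm]
    exact Nat.mul_le_mul_right _ h2
  obtain ⟨t0, ht0, rfl⟩ := Finset.mem_image.1 hc0
  obtain ⟨hq1, hq2⟩ := hqq t0 ht0
  obtain ⟨hq3, hq4, hq5⟩ := hQ _ hq1
  have hres : ∀ t ∈ T, F t = F t0 → ∀ i, (qq t0 : ℤ) ∣ s t i - s t0 i := by
    intro t ht hF i
    have e1 : qq t = qq t0 := congrArg Prod.fst hF
    have e2 := congrFun (congrArg Prod.snd hF) i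
    have e3 : ((s t i) % (qq t : ℤ)).toNat % X ^ 2 = ((s t0 i) % (qq t0 : ℤ)).toNat % X ^ 2 :=
      congrArg Fin.val e2
    rw [e1] at e3
    have hqpos : (0 : ℤ) < (qq t0 : ℤ) := by exact_mod_cast hq3.pos
    have hlt : ∀ x : ℤ, (x % (qq t0 : ℤ)).toNat < X ^ 2 := by
      intro x
      have g1 := Int.emod_lt_of_pos x hqpos
      have g2 := Int.emod_nonneg x hqpos.ne'
      omega
    rw [Nat.mod_eq_of_lt (hlt _), Nat.mod_eq_of_lt (hlt _)] at e3
    have g2 := Int.emod_nonneg (s t i) hqpos.ne'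
    have g3 := Int.emod_nonneg (s t0 i) hqpos.ne'
    have e4 : s t i % (qq t0 : ℤ) = s t0 i % (qq t0 : ℤ) := by omega
    exact (Int.ModEq.symm e4).dvd
  obtain ⟨c, hc1, hc2, hc3⟩ := cls hD hρ hX2 (by omega) hY hYX hq3 hq4 H f a (s t0)
    (s '' {t | t ∈ T ∧ F t = F t0}) hq2
    (by
      rintro _ ⟨t, ⟨ht1, ht2⟩, rfl⟩ i
      exact hres t ht1 ht2 i)
    (by
      rintro _ ⟨t, ⟨ht1, ht2⟩, rfl⟩
      obtain ⟨g1, g2, g3, -⟩ := hT t ht1
      exact ⟨g1, g2, g3⟩)
  refine ⟨c, hc1, fun e => (hc2 e).trans ?_, fun t ht => ?_⟩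
  · have g1 : (qq t0) ^ ρ ≤ X ^ (2 * ρ) := by
      rw [pow_mul]
      exact Nat.pow_le_pow_left hq5 _
    exact_mod_cast g1
  · rw [Finset.mem_filter] at ht
    exact hc3 _ ⟨t, ht, rfl⟩

end Pool.Agent.Y884.GN
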